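import Mathlib
import Pool.Agent.H984R2.ColDefs
import Pool.Agent.H984R2.ColE
import Pool.Agent.H984R2.ColF

set_option autoImplicit false

/-!
# Where monotonicity of the colouring mixing time fails, and by how much

For every bound `D` on the maximum degree and every sufficiently large graph `G` of maximum degree
at most `D`, with `n` vertices: the mixing time `t_G(q)` is at most
`(1/2 + ε) n log n + (1/2) n log q` for **every** `q` between `n^(1/3)` and `n`, it is at least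
`(1 - ε) n log n` for every `q ≥ 8 n + D`, and so monotonicity fails at some `q` between
`n^(1 - ε)` and `8 n + D`.
-/

namespace Pool.Agent.Results.MP_a221c1_pr.FailureNearN

open Pool.Agent.H984R2.Col Filter Real

theorem part_B' {n : ℕ} {D N r s m θ q : ℝ} (hN' : N = n) (hD : 0 ≤ D) (hN : 3 ≤ N)
    (hr : 0 < r) (hs : 0 < s) (hsr : s ≤ r) (hs2 : s ^ 2 * q = N)
    (hm : 1 ≤ m) (hθ : 0 ≤ θ) (hq : r ≤ q) (hlam : N * θ ≤ s / m)
    (E1 : 4 * D + 8 ≤ r) (E4 : 100 * (8 * D + 4) ≤ m) :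
    Real.sqrt ((1 + (q / (q - 2 * D) * (1 + (q - 1) * θ) - 1) * θ) ^ n - 1) ≤ 1 / 10 := by
  have hN0 : 0 < N := by linarith
  have hm0 : 0 < m := by linarith
  have hq0 : 0 < q := by linarith
  have hq2D : r / 2 ≤ q - 2 * D := by linarith
  have hq2D0 : 0 < q - 2 * D := by linarith
  have hKe : q / (q - 2 * D) - 1 = 2 * D / (q - 2 * D) := by field_simp; ring
  have hK1 : q / (q - 2 * D) - 1 ≤ 4 * D / r := by
    rw [hKe]
    calc 2 * D / (q - 2 * D) ≤ 2 * D / (r / 2) := by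
          apply div_le_div_of_nonneg_left (by positivity) (by positivity) hq2D
      _ = 4 * D / r := by field_simp; ring
  have hK0 : 0 ≤ q / (q - 2 * D) - 1 := by rw [hKe]; positivity
  generalize q / (q - 2 * D) = K at *
  have hK2 : K ≤ 2 := by
    have : 4 * D / r ≤ 1 := by rw [div_le_one hr]; linarith
    linarith
  have hq1' : 0 ≤ q - 1 := by linarith
  have hY0 : 0 ≤ (K * (1 + (q - 1) * θ) - 1) * θ := by
    apply mul_nonneg _ hθ
    have : 0 ≤ (q - 1) * θ := mul_nonneg hq1' hθ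
    nlinarith
  have hYb : N * ((K * (1 + (q - 1) * θ) - 1) * θ) ≤ (4 * D + 2) / m := by
    have e1 : N * ((K * (1 + (q - 1) * θ) - 1) * θ) =
        (N * θ) * (K - 1) + K * (q - 1) * ((N * θ) ^ 2 / N) := by
      field_simp; ring
    rw [e1]
    have hNθ : 0 ≤ N * θ := by positivity
    have hlam' : N * θ ≤ r / m := hlam.trans (div_le_div_of_nonneg_right hsr hm0.le)
    have a1 : (N * θ) * (K - 1) ≤ (r / m) * (4 * D / r) :=
      mul_le_mul hlam' hK1 hK0 (by positivity)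
    have a2 : K * (q - 1) * ((N * θ) ^ 2 / N) ≤ 2 * q * ((s / m) ^ 2 / N) := by
      apply mul_le_mul _ _ (by positivity) (by positivity)
      · exact mul_le_mul hK2 (by linarith) hq1' (by norm_num)
      · exact div_le_div_of_nonneg_right (pow_le_pow_left₀ hNθ hlam 2) hN0.le
    have a3 : (r / m) * (4 * D / r) = 4 * D / m := by field_simp
    have a4 : 2 * q * ((s / m) ^ 2 / N) = 2 / m ^ 2 := by
      rw [← hs2]; field_simp
    have a5 : 2 / m ^ 2 ≤ 2 / m := by
      apply div_le_div_of_nonneg_left (by norm_num) hm0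
      nlinarith
    calc _ ≤ 4 * D / m + 2 / m := by rw [a3] at a1; rw [a4] at a2; linarith
      _ = _ := by ring
  generalize (K * (1 + (q - 1) * θ) - 1) * θ = Y at *
  have hB : (1 + Y) ^ n - 1 ≤ 1 / 100 := by
    have b1 : (1 + Y) ^ n ≤ exp (N * Y) := by
      calc (1 + Y) ^ n ≤ exp Y ^ n := by
            apply pow_le_pow_left₀ (by linarith)
            have := Real.add_one_le_exp Y
            linarith
        _ = exp (N * Y) := by rw [← Real.exp_nat_mul, hN']
    have hm100 : (4 * D + 2) / m ≤ 1 / 200 := by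
      rw [div_le_div_iff₀ hm0 (by norm_num)]
      linarith
    have b2 := exp_sub_one_le (z := N * Y) (by positivity) (by linarith)
    linarith
  rw [show (1 / 10 : ℝ) = Real.sqrt (1 / 100) by
    rw [show (1 / 100 : ℝ) = (1 / 10) ^ 2 by norm_num, Real.sqrt_sq (by norm_num)]]
  exact Real.sqrt_le_sqrt hB

theorem lam_bound' {t : ℕ} {N q δ : ℝ} (hN : 3 ≤ N)
    (ht1 : N * ((1 / 2 + δ) * log N + 1 / 2 * log q) ≤ t) :
    N * (1 - 1 / N) ^ t ≤ exp ((log N - log q) / 2) / N ^ δ := by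
  have hn0 : 0 < N := by linarith
  have h1 := theta_upper (n := N) (by linarith) t
  have h2 : exp (-(t / N)) ≤ exp (-((1 / 2 + δ) * log N + 1 / 2 * log q)) := by
    apply Real.exp_le_exp.mpr
    apply neg_le_neg
    rw [le_div_iff₀ hn0]
    calc ((1 / 2 + δ) * log N + 1 / 2 * log q) * N =
        N * ((1 / 2 + δ) * log N + 1 / 2 * log q) := by ring
      _ ≤ t := ht1
  have h3 : N * exp (-((1 / 2 + δ) * log N + 1 / 2 * log q)) =
      exp ((log N - log q) / 2) / N ^ δ := by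
    have e1 : N = exp (log N) := by rw [Real.exp_log hn0]
    have e3 : N ^ δ = exp (log N * δ) := Real.rpow_def_of_pos hn0 _
    rw [e3, ← Real.exp_sub]
    calc N * exp (-((1 / 2 + δ) * log N + 1 / 2 * log q)) =
        exp (log N) * exp (-((1 / 2 + δ) * log N + 1 / 2 * log q)) := by rw [← e1]
      _ = _ := by rw [← Real.exp_add]; congr 1; ring
  rw [← h3]
  exact mul_le_mul_of_nonneg_left (h1.trans h2) hn0.le

theorem upper_num' {D t n : ℕ} {q δ : ℝ} (hδ : 0 < δ) (hδ1 : δ ≤ 1) (hn : 3 ≤ n)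
    (hq1 : (n : ℝ) ^ (1 / 3 : ℝ) ≤ q) (hq2 : q ≤ n)
    (ht1 : n * ((1 / 2 + δ) * log n + 1 / 2 * log q) ≤ t)
    (ht2 : (t : ℝ) ≤ n * ((1 / 2 + δ) * log n + 1 / 2 * log q) + 1)
    (E1 : 4 * (D : ℝ) + 8 ≤ (n : ℝ) ^ (1 / 3 : ℝ))
    (E2 : 24 * (D : ℝ) * log n ≤ (n : ℝ) ^ (1 / 3 : ℝ))
    (E3 : 480 * (D : ℝ) * log n ≤ (n : ℝ) ^ δ)
    (E4 : 100 * (8 * (D : ℝ) + 4) ≤ (n : ℝ) ^ δ) :
    ((n : ℝ) * (1 - 1 / (n : ℝ) + 3 * D / ((n : ℝ) * q)) ^ t - n * (1 - 1 / (n : ℝ)) ^ t) +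
      Real.sqrt ((1 + (q / (q - 2 * D) * (1 + (q - 1) * (1 - 1 / (n : ℝ)) ^ t) - 1) *
        (1 - 1 / (n : ℝ)) ^ t) ^ n - 1) ≤ 1 / exp 1 := by
  have hD0 : (0 : ℝ) ≤ D := Nat.cast_nonneg D
  have hn3 : (3 : ℝ) ≤ n := by exact_mod_cast hn
  have hn0 : (0 : ℝ) < n := by linarith
  have hr0 : 0 < (n : ℝ) ^ (1 / 3 : ℝ) := by positivity
  have hm1 : 1 ≤ (n : ℝ) ^ δ := by linarith
  have hL1 : 1 ≤ log n := by
    rw [Real.le_log_iff_exp_le hn0]
    have := Real.exp_one_lt_d9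
    linarith
  have h1N : 0 ≤ 1 - 1 / (n : ℝ) := by
    rw [sub_nonneg, div_le_one (by linarith)]; linarith
  have hθ0 : 0 ≤ (1 - 1 / (n : ℝ)) ^ t := pow_nonneg h1N t
  have hlam := lam_bound' (N := (n : ℝ)) (δ := δ) hn3 ht1
  have hq0 : 0 < q := by linarith
  have hlogq : log q ≤ log n := Real.log_le_log hq0 hq2
  have hlogq3 : 1 / 3 * log n ≤ log q := by
    rw [← Real.log_rpow hn0]
    exact Real.log_le_log hr0 hq1
  have hs0 : 0 < exp ((log n - log q) / 2) := exp_pos _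
  have hs2 : exp ((log (n : ℝ) - log q) / 2) ^ 2 * q = n := by
    rw [← Real.exp_nat_mul]
    have e1 : ((2 : ℕ) : ℝ) * ((log (n : ℝ) - log q) / 2) = log n - log q := by
      push_cast; ring
    rw [e1, Real.exp_sub, Real.exp_log hn0, Real.exp_log hq0]
    field_simp
  have hsr : exp ((log (n : ℝ) - log q) / 2) ≤ (n : ℝ) ^ (1 / 3 : ℝ) := by
    rw [Real.rpow_def_of_pos hn0]
    apply Real.exp_le_exp.mpr
    linarith
  have hlam' : (n : ℝ) * (1 - 1 / (n : ℝ)) ^ t ≤ (n : ℝ) ^ (1 / 3 : ℝ) / (n : ℝ) ^ δ :=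
    hlam.trans (div_le_div_of_nonneg_right hsr (by linarith))
  have ht4 : (t : ℝ) ≤ 4 * n * log n := by
    have h1 : 1 ≤ (n : ℝ) * log n := by nlinarith
    have h2 : (n : ℝ) * ((1 / 2 + δ) * log n + 1 / 2 * log q) ≤ n * (2 * log n) := by
      apply mul_le_mul_of_nonneg_left _ hn0.le
      nlinarith
    linarith
  have hA := part_A (t := t) (θ := (1 - 1 / (n : ℝ)) ^ t) hD0 hn3 hL1 hr0
    (by linarith) hθ0 hq1 hlam' ht4 E2 E3
  have hB := part_B' (n := n) (θ := (1 - 1 / (n : ℝ)) ^ t) rfl hD0 hn3 hr0 hs0 hsr hs2 hm1 hθ0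
    hq1 hlam E1 E4
  have c1 : 1 - 1 / (n : ℝ) + 3 * D / (n * q) =
      (1 - 1 / (n : ℝ)) * (1 + 3 * D / (q * ((n : ℝ) - 1))) := by
    have : (n : ℝ) - 1 ≠ 0 := by linarith
    field_simp
  rw [c1, mul_pow]
  have he : (2 / 10 : ℝ) ≤ 1 / exp 1 := by
    rw [div_le_div_iff₀ (by norm_num) (exp_pos 1)]
    have := Real.exp_one_lt_d9
    linarith
  linarith

theorem nb_card {V : Type} [Fintype V] [DecidableEq V] (G : SimpleGraph V) [DecidableRel G.Adj]
    {D : ℕ} (h : G.maxDegree ≤ D) (v : V) : (nb G v).card ≤ D := by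
  have h1 : nb G v = G.neighborFinset v := by
    ext u; simp [mem_nb]
  rw [h1]
  exact (G.degree_le_maxDegree v).trans h

/-- the numerical conditions on the number `n` of vertices -/
theorem eventually_cond (D : ℕ) (δ : ℝ) (hδ : 0 < δ) : ∀ᶠ n : ℕ in atTop,
    3 ≤ n ∧ 4 * (D : ℝ) + 8 ≤ (n : ℝ) ^ (1 / 3 : ℝ) ∧
    24 * (D : ℝ) * Real.log n ≤ (n : ℝ) ^ (1 / 3 : ℝ) ∧
    480 * (D : ℝ) * Real.log n ≤ (n : ℝ) ^ δ ∧
    100 * (8 * (D : ℝ) + 4) ≤ (n : ℝ) ^ δ ∧ 1 / δ ≤ Real.log n := by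
  have hD : (0 : ℝ) ≤ D := Nat.cast_nonneg D
  have hlog : ∀ (a c : ℝ), 0 < a → 0 < c →
      ∀ᶠ n : ℕ in atTop, c * Real.log n ≤ (n : ℝ) ^ a := by
    intro a c ha hc
    have h1 := (isLittleO_log_rpow_atTop ha).bound (show 0 < 1 / c by positivity)
    have h2 := tendsto_natCast_atTop_atTop (R := ℝ).eventually h1
    filter_upwards [h2, eventually_ge_atTop 1] with n hn hn1
    have h3 : (0 : ℝ) ≤ (n : ℝ) ^ a := by positivity
    rw [Real.norm_eq_abs, Real.norm_eq_abs, abs_of_nonneg h3] at hn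
    have h4 := (le_abs_self _).trans hn
    calc c * Real.log n ≤ c * (1 / c * (n : ℝ) ^ a) := by gcongr
      _ = (n : ℝ) ^ a := by field_simp
  have hpow : ∀ (a c : ℝ), 0 < a → ∀ᶠ n : ℕ in atTop, c ≤ (n : ℝ) ^ a := by
    intro a c ha
    exact (tendsto_natCast_atTop_atTop (R := ℝ)).eventually
      ((tendsto_rpow_atTop ha).eventually_ge_atTop c)
  have hlog2 : ∀ᶠ n : ℕ in atTop, 1 / δ ≤ Real.log n :=
    (tendsto_natCast_atTop_atTop (R := ℝ)).eventually (Real.tendsto_log_atTop.eventually_ge_atTop _)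
  filter_upwards [eventually_ge_atTop 3, hpow (1 / 3) (4 * (D : ℝ) + 8) (by norm_num),
    hlog (1 / 3) (24 * D + 1) (by norm_num) (by positivity),
    hlog δ (480 * D + 1) hδ (by positivity), hpow δ (100 * (8 * (D : ℝ) + 4)) hδ, hlog2]
    with n h1 h2 h3 h4 h5 h6
  have hL : 0 ≤ Real.log n := Real.log_nonneg (by exact_mod_cast (by omega : 1 ≤ n))
  refine ⟨h1, h2, ?_, ?_, h5, h6⟩
  · linarith
  · linarith

/-- For every `D` and every `ε > 0` there is `N` such that for every graph `G` on `n ≥ N` vertices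
with maximum degree at most `D`:
* for every `q` with `n^(1/3) ≤ q ≤ n`: `q ≥ D + 2` and
  `t_G(q) ≤ (1/2 + ε) n log n + (1/2) n log q`;
* `t_G(q') ≥ (1 - ε) n log n` for all `q' ≥ 8 n + D`;
* `t_G(q) < t_G(q + 1)` for some `q ≥ D + 2` with `n^(1 - ε) ≤ q < 8 n + D`. -/
theorem result : ∀ (D : ℕ) (ε : ℝ), 0 < ε → ∃ N : ℕ,
    ∀ (V : Type) [Fintype V] [DecidableEq V] (G : SimpleGraph V) [DecidableRel G.Adj],
      N ≤ Fintype.card V → G.maxDegree ≤ D →
      (∀ q : ℕ, (Fintype.card V : ℝ) ^ (1 / 3 : ℝ) ≤ q → q ≤ Fintype.card V →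
        D + 2 ≤ q ∧
        (tmix G q : ℝ) ≤ (1 / 2 + ε) * (Fintype.card V * Real.log (Fintype.card V)) +
          1 / 2 * (Fintype.card V * Real.log q)) ∧
      (∀ q' : ℕ, 8 * Fintype.card V + D ≤ q' →
        (1 - ε) * (Fintype.card V * Real.log (Fintype.card V)) ≤ (tmix G q' : ℝ)) ∧
      (∃ q : ℕ, D + 2 ≤ q ∧ (Fintype.card V : ℝ) ^ (1 - ε) ≤ q ∧ q < 8 * Fintype.card V + D ∧
        tmix G q < tmix G (q + 1)) := by
  intro D ε hε
  set η : ℝ := min ε (1 / 2) with hηdef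
  have hη : 0 < η := by rw [hηdef]; positivity
  have hηε : η ≤ ε := min_le_left _ _
  have hη2 : η ≤ 1 / 2 := min_le_right _ _
  set δ : ℝ := η / 16 with hδdef
  have hδ : 0 < δ := by positivity
  have hδε : 2 * δ ≤ ε := by linarith
  have hδ20 : δ ≤ 1 / 20 := by linarith
  obtain ⟨N, hN⟩ := eventually_atTop.mp (eventually_cond D δ hδ)
  refine ⟨N, ?_⟩
  intro V _ _ G _ hcard hdeg
  obtain ⟨h3, E1, E2, E3, E4, E5⟩ := hN (Fintype.card V) hcard
  have hD := nb_card G hdeg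
  have hne : Nonempty V := Fintype.card_pos_iff.mp (by omega)
  generalize hn : Fintype.card V = n at *
  have hn3 : (3 : ℝ) ≤ n := by exact_mod_cast h3
  have hn0 : (0 : ℝ) < n := by linarith
  have hD0 : (0 : ℝ) ≤ D := Nat.cast_nonneg D
  have hLδ : 1 ≤ δ * Real.log n := by
    have := mul_le_mul_of_nonneg_left E5 hδ.le
    rwa [mul_one_div_cancel hδ.ne'] at this
  have hL0 : 0 ≤ Real.log n := Real.log_nonneg (by linarith)
  have hnL0 : 0 ≤ (n : ℝ) * Real.log n := by positivity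
  have hLpos : 0 < Real.log n := Real.log_pos (by linarith)
  have hδnL : (n : ℝ) ≤ δ * (n * Real.log n) := by
    calc (n : ℝ) = n * 1 := by ring
      _ ≤ n * (δ * Real.log n) := by gcongr
      _ = _ := by ring
  -- the upper bound
  have hup : ∀ q : ℕ, (n : ℝ) ^ (1 / 3 : ℝ) ≤ q → q ≤ n → D + 2 ≤ q ∧
      (tmix G q : ℝ) ≤ (1 / 2 + 2 * δ) * (n * Real.log n) + 1 / 2 * (n * Real.log q) := by
    intro q hq1 hqn
    have hqn' : (q : ℝ) ≤ n := by exact_mod_cast hqn
    have hDq : D + 2 ≤ q := by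
      have : (D : ℝ) + 2 ≤ q := by linarith
      exact_mod_cast this
    have hq0 : 0 < q := by omega
    have hDq2 : 2 * (D : ℝ) < q := by linarith
    have hlogq0 : 0 ≤ Real.log q := Real.log_nonneg (by exact_mod_cast hq0)
    refine ⟨hDq, ?_⟩
    set t : ℕ := ⌈(n : ℝ) * ((1 / 2 + δ) * Real.log n + 1 / 2 * Real.log q)⌉₊ with ht
    have ht1 : (n : ℝ) * ((1 / 2 + δ) * Real.log n + 1 / 2 * Real.log q) ≤ t := Nat.le_ceil _
    have ht2 : (t : ℝ) ≤ (n : ℝ) * ((1 / 2 + δ) * Real.log n + 1 / 2 * Real.log q) + 1 :=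
      (Nat.ceil_lt_add_one (by positivity)).le
    have hupt : tmix G q ≤ t := by
      apply tmix_le
      intro x
      have h1 := tv_upper hD hq0 hDq2 x t
      unfold th at h1
      rw [hn] at h1
      refine h1.trans ?_
      exact upper_num' hδ (by linarith) h3 hq1 hqn' ht1 ht2 E1 E2 E3 E4
    have h1 : (tmix G q : ℝ) ≤ t := by exact_mod_cast hupt
    have h2 : (1 : ℝ) ≤ δ * (n * Real.log n) := by linarith
    calc (tmix G q : ℝ) ≤ (n : ℝ) * ((1 / 2 + δ) * Real.log n + 1 / 2 * Real.log q) + 1 :=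
          h1.trans ht2
      _ ≤ (n : ℝ) * ((1 / 2 + δ) * Real.log n + 1 / 2 * Real.log q) +
          δ * (n * Real.log n) := by linarith
      _ = _ := by ring
  -- the large numbers of colours
  have hlow : ∀ q' : ℕ, 8 * n + D ≤ q' →
      (1 - 2 * δ) * (n * Real.log n) ≤ (tmix G q' : ℝ) := by
    intro q' hq'
    have hq'r : 8 * (n : ℝ) + D ≤ q' := by exact_mod_cast hq'
    have hDn : (D : ℝ) ≤ n := by
      have h1 : (n : ℝ) ^ (1 / 3 : ℝ) ≤ (n : ℝ) ^ (1 : ℝ) :=
        Real.rpow_le_rpow_of_exponent_le (by linarith) (by norm_num)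
      rw [Real.rpow_one] at h1
      linarith
    have hx : Nonempty (PCol G q') := by
      have hle : Fintype.card V ≤ Fintype.card (Fin q') := by
        rw [Fintype.card_fin, hn]; omega
      obtain ⟨f⟩ := Function.Embedding.nonempty_of_card_le hle
      exact ⟨⟨f, fun u w huw => fun h => huw.ne (f.injective h)⟩⟩
    obtain ⟨x⟩ := hx
    have hlt : ⌊((n : ℝ) - 1) * Real.log (n / 2)⌋₊ < tmix G q' := by
      apply lt_tmix hD (by linarith) x
      intro s hs
      have hlog : 0 ≤ Real.log ((n : ℝ) / 2) := Real.log_nonneg (by linarith)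
      have hs' : (s : ℝ) ≤ ((n : ℝ) - 1) * Real.log (n / 2) := by
        calc (s : ℝ) ≤ (⌊((n : ℝ) - 1) * Real.log (n / 2)⌋₊ : ℝ) := by exact_mod_cast hs
          _ ≤ _ := Nat.floor_le (mul_nonneg (by linarith) hlog)
      obtain ⟨hp, hl⟩ := lower_num (d := (q' : ℝ) - D) h3 hs' (by linarith)
      refine lt_of_lt_of_le hl ?_
      have h1 := tv_lower hD (by omega) (by linarith) x s (by
        unfold th; rw [hn]; exact hp)
      unfold th at h1
      rw [hn] at h1
      exact h1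
    have h1 : ((n : ℝ) - 1) * Real.log (n / 2) ≤ tmix G q' := by
      have h2 := Nat.lt_floor_add_one (((n : ℝ) - 1) * Real.log (n / 2))
      have h3 : ((⌊((n : ℝ) - 1) * Real.log (n / 2)⌋₊ : ℕ) : ℝ) + 1 ≤ tmix G q' := by
        exact_mod_cast hlt
      linarith
    refine le_trans ?_ h1
    have h2 : Real.log ((n : ℝ) / 2) = Real.log n - Real.log 2 :=
      Real.log_div (by linarith) (by norm_num)
    rw [h2]
    have h4 : Real.log 2 ≤ 1 := by
      have := Real.log_two_lt_d9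
      linarith
    have h5 : Real.log n ≤ n := by
      have := Real.log_le_sub_one_of_pos (show (0 : ℝ) < n by linarith)
      linarith
    have h6 : ((n : ℝ) - 1) * (Real.log n - Real.log 2) =
        n * Real.log n - Real.log n - (n - 1) * Real.log 2 := by ring
    rw [h6]
    have h7 : ((n : ℝ) - 1) * Real.log 2 ≤ (n - 1) * 1 := by
      apply mul_le_mul_of_nonneg_left h4 (by linarith)
    nlinarith
  refine ⟨?_, ?_, ?_⟩
  · intro q hq1 hqn
    obtain ⟨h1, h2⟩ := hup q hq1 hqn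
    refine ⟨h1, h2.trans ?_⟩
    have h4 : (1 / 2 + 2 * δ) * ((n : ℝ) * Real.log n) ≤ (1 / 2 + ε) * (n * Real.log n) :=
      mul_le_mul_of_nonneg_right (by linarith) hnL0
    linarith
  · intro q' hq'
    refine le_trans ?_ (hlow q' hq')
    apply mul_le_mul_of_nonneg_right _ hnL0
    linarith
  · -- the failure of monotonicity
    set q : ℕ := ⌈(n : ℝ) ^ (1 - η)⌉₊ with hq
    have hqlo : (n : ℝ) ^ (1 - η) ≤ q := Nat.le_ceil _
    have hq1 : (n : ℝ) ^ (1 / 3 : ℝ) ≤ q := by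
      refine le_trans ?_ hqlo
      exact Real.rpow_le_rpow_of_exponent_le (by linarith) (by linarith)
    have hqn : q ≤ n := by
      rw [hq]
      apply Nat.ceil_le.mpr
      calc (n : ℝ) ^ (1 - η) ≤ (n : ℝ) ^ (1 : ℝ) :=
            Real.rpow_le_rpow_of_exponent_le (by linarith) (by linarith)
        _ = n := Real.rpow_one _
    obtain ⟨hDq, hupq⟩ := hup q hq1 hqn
    have hpow0 : 0 < (n : ℝ) ^ (1 - η) := by positivity
    have hpow1 : 1 ≤ (n : ℝ) ^ (1 - η) := Real.one_le_rpow (by linarith) (by linarith)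
    have hqhi : (q : ℝ) ≤ 2 * (n : ℝ) ^ (1 - η) := by
      have := (Nat.ceil_lt_add_one (hpow0.le)).le
      linarith
    have hq0 : (0 : ℝ) < q := by linarith
    have hlogq : Real.log q ≤ 1 + (1 - η) * Real.log n := by
      have h1 : Real.log q ≤ Real.log (2 * (n : ℝ) ^ (1 - η)) := Real.log_le_log hq0 hqhi
      rw [Real.log_mul (by norm_num) hpow0.ne', Real.log_rpow hn0] at h1
      have := Real.log_two_lt_d9
      linarith
    have hlogq' : Real.log q ≤ (1 - 15 * δ) * Real.log n := by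
      have : η = 16 * δ := by rw [hδdef]; ring
      rw [this] at hlogq
      nlinarith
    by_contra hcon
    push Not at hcon
    have hmono : ∀ q' : ℕ, q ≤ q' → q' ≤ 8 * n + D → tmix G q' ≤ tmix G q := by
      intro q' hq'
      induction q', hq' using Nat.le_induction with
      | base => exact fun _ => le_refl _
      | succ k hk ih =>
        intro hk2
        refine (hcon k (by omega) ?_ (by omega)).trans (ih (by omega))
        have hkr : (q : ℝ) ≤ k := by exact_mod_cast hk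
        have h1 : (n : ℝ) ^ (1 - ε) ≤ (n : ℝ) ^ (1 - η) :=
          Real.rpow_le_rpow_of_exponent_le (by linarith) (by linarith)
        linarith
    have h1 := hmono (8 * n + D) (by omega) (le_refl _)
    have h2 := hlow (8 * n + D) (le_refl _)
    have h4 : (tmix G (8 * n + D) : ℝ) ≤ tmix G q := by exact_mod_cast h1
    have h5 : (n : ℝ) * Real.log q ≤ (1 - 15 * δ) * (n * Real.log n) := by
      calc (n : ℝ) * Real.log q ≤ n * ((1 - 15 * δ) * Real.log n) :=
            mul_le_mul_of_nonneg_left hlogq' hn0.le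
        _ = _ := by ring
    have h6 : 0 < δ * ((n : ℝ) * Real.log n) := by positivity
    nlinarith

end Pool.Agent.Results.MP_a221c1_pr.FailureNearN
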